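import Mathlib
import Pool.Agent.Helper42.Susp.Final

open Pool.Agent.Helper17 Pool.Agent.Helper42

namespace Pool.Agent.Helper42.Old.PairSpaces

/-- For every `N`: all homotopy groups (including the set of path components) of the groups
`Symp_ct(ℝ^{2n})` vanish for all `n ≤ N` if and only if all homotopy groups of the spaces
`PairSp n` of pairs of functions on `ℝ^{2n+2}` vanish for all `n < N`. -/
theorem result (N : ℕ) :
    (∀ n ≤ N, ∀ k : ℕ, Subsingleton (HomotopyGroup (Fin k) (SympCt n) 1)) ↔
    (∀ n < N, ∀ k : ℕ, Subsingleton (HomotopyGroup (Fin k) (PairSp n) PairSp.std)) :=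
  weakly_contractible_iff N

end Pool.Agent.Helper42.Old.PairSpaces
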